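import Pool.Agent.Lib.MP_675adf_co_SB.Surgery

/-!
# Minimum spanning trees with sparse branching
-/

set_option autoImplicit false

open Real T3

namespace MP_675adf_co_SB

/-- The neighbours v of w of degree at least four from which w is not the only farthest
neighbour. -/
def recs {V : Type} (T : SimpleGraph V) (d : V → V → ℝ) (w : V) : Set V :=
  {v | T.Adj v w ∧ 4 ≤ (T.neighborSet v).ncard ∧ ∃ y, T.Adj v y ∧ y ≠ w ∧ d v w ≤ d v y}

open Classical in
theorem all_steps {V : Type} [Fintype V] (pos : V → ℂ) (hinj : Function.Injective pos)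
    (hd : ∀ a b, ‖pos a - pos b‖ = ‖pos b - pos a‖) (T : SimpleGraph V) (hT : T.IsTree)
    (h45 : ∀ v, 4 ≤ (T.neighborSet v).ncard → (T.neighborSet v).ncard = 4 ∨
      ((T.neighborSet v).ncard = 5 ∧ ∀ x ∈ T.neighborSet v, ∀ y ∈ T.neighborSet v, x ≠ y →
        ‖pos v - pos x‖ ≤ ‖pos x - pos y‖))
    (hna : ∀ v w, 4 ≤ (T.neighborSet v).ncard → 4 ≤ (T.neighborSet w).ncard → ¬ T.Adj v w)
    (W : Finset V) : (∀ v ∈ W, 4 ≤ (T.neighborSet v).ncard) →
    ∃ T' : SimpleGraph V, T'.IsTree ∧ (∀ v ∈ W, (T'.neighborSet v).ncard ≤ 3) ∧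
      (∀ v, 4 ≤ (T.neighborSet v).ncard → v ∉ W → T'.neighborSet v = T.neighborSet v) ∧
      (∀ x, (T.neighborSet x).ncard ≤ 3 → (T'.neighborSet x).ncard ≤ (T.neighborSet x).ncard +
        (W.filter (· ∈ recs T (fun a b => ‖pos a - pos b‖) x)).card) ∧
      gw (fun a b => ‖pos a - pos b‖) hd T' ≤ gw (fun a b => ‖pos a - pos b‖) hd T +
        kk * ∑ v ∈ W, ∑ y ∈ Finset.univ.filter (· ∈ T.neighborSet v), ‖pos v - pos y‖ := by
  induction W using Finset.induction_on with
  | empty =>
    intro _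
    refine ⟨T, hT, by simp, fun _ _ _ => rfl, fun x _ => by simp, by simp⟩
  | insert v W hvW ih =>
    intro hW
    obtain ⟨T1, t1, t2, t3, t4, t5⟩ := ih fun u hu => hW u (Finset.mem_insert_of_mem hu)
    have hv4 := hW v (Finset.mem_insert_self v W)
    have hNv := t3 v hv4 hvW
    obtain ⟨T2, s1, s2, s3, s4, s5⟩ := local_step pos hinj hd T1 t1 v _ hNv (h45 v hv4)
    refine ⟨T2, s1, ?_, ?_, ?_, ?_⟩
    · intro u hu
      rcases Finset.mem_insert.1 hu with rfl | hu
      · exact s2
      · have hu4 := hW u (Finset.mem_insert_of_mem hu)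
        rw [s3 u (hna v u hv4 hu4) (fun h => hvW (h ▸ hu))]
        exact t2 u hu
    · intro u hu4 hu
      rw [Finset.mem_insert, not_or] at hu
      rw [s3 u (hna v u hv4 hu4) hu.1]
      exact t3 u hu4 hu.2
    · intro x hx
      have h6 := t4 x hx
      have hxv : x ≠ v := fun h => by
        rw [h] at hx
        omega
      rw [Finset.filter_insert]
      by_cases hxN : x ∈ T.neighborSet v
      · have h7 := s4 x hxN
        by_cases hr : ∃ y ∈ T.neighborSet v, y ≠ x ∧ ‖pos v - pos x‖ ≤ ‖pos v - pos y‖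
        · rw [if_pos hr] at h7
          obtain ⟨y, hy1, hy2, hy3⟩ := hr
          have hmem : v ∈ recs T (fun a b => ‖pos a - pos b‖) x := ⟨hxN, hv4, y, hy1, hy2, hy3⟩
          rw [if_pos hmem, Finset.card_insert_of_notMem
            (fun h => hvW (Finset.mem_filter.1 h).1)]
          omega
        · rw [if_neg hr] at h7
          split_ifs
          · rw [Finset.card_insert_of_notMem (fun h => hvW (Finset.mem_filter.1 h).1)]
            omega
          · omega
      · rw [s3 x hxN hxv]
        split_ifs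
        · rw [Finset.card_insert_of_notMem (fun h => hvW (Finset.mem_filter.1 h).1)]
          omega
        · exact h6
    · have hz : (∑ y ∈ @Finset.filter V (· ∈ T.neighborSet v)
          (fun a => Classical.propDecidable _) Finset.univ, ‖pos v - pos y‖) =
          ∑ y ∈ Finset.univ.filter (· ∈ T.neighborSet v), ‖pos v - pos y‖ :=
        Finset.sum_congr (by ext y; simp) fun _ _ => rfl
      rw [hz] at s5
      rw [Finset.sum_insert hvW, mul_add]
      linarith

open Classical in
/-- The stars of pairwise nonadjacent vertices have total length at most that of the edges with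
an end among these vertices. -/
theorem stars_le {V : Type} [Fintype V] (d : V → V → ℝ) (hd : ∀ a b, d a b = d b a)
    (h0 : ∀ a b, 0 ≤ d a b) (T : SimpleGraph V) (W : Finset V)
    (hW : ∀ v ∈ W, ∀ w ∈ W, ¬ T.Adj v w) :
    ∑ v ∈ W, ∑ y ∈ Finset.univ.filter (· ∈ T.neighborSet v), d v y ≤
      ∑ e ∈ Finset.univ.filter (fun e : Sym2 V => e ∈ T.edgeSet ∧ ∃ v ∈ e, v ∈ W),
        elen d hd e := by
  rw [← Finset.sum_sigma W (fun v => Finset.univ.filter (· ∈ T.neighborSet v))
    (fun p => d p.1 p.2)]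
  have hinj : Set.InjOn (fun p : (_ : V) × V => s(p.1, p.2))
      (W.sigma fun v => Finset.univ.filter (· ∈ T.neighborSet v)) := by
    rintro ⟨v, y⟩ h1 ⟨v', y'⟩ h2 h
    simp only [Finset.coe_sigma, Set.mem_sigma_iff, Finset.mem_coe, Finset.mem_filter,
      Finset.mem_univ, true_and, SimpleGraph.mem_neighborSet] at h1 h2
    simp only [Sym2.eq_iff] at h
    rcases h with ⟨h3, h4⟩ | ⟨h3, h4⟩
    · rw [h3, h4]
    · exfalso
      apply hW v h1.1 v' h2.1
      rw [← h4]
      exact h1.2
  have h1 : ∑ p ∈ W.sigma (fun v => Finset.univ.filter (· ∈ T.neighborSet v)), d p.1 p.2 =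
      ∑ e ∈ (W.sigma fun v => Finset.univ.filter (· ∈ T.neighborSet v)).image
        (fun p : (_ : V) × V => s(p.1, p.2)), elen d hd e := by
    rw [Finset.sum_image hinj]
    rfl
  rw [h1]
  refine Finset.sum_le_sum_of_subset_of_nonneg ?_ ?_
  · intro e he
    obtain ⟨p, hp, rfl⟩ := Finset.mem_image.1 he
    simp only [Finset.mem_sigma, Finset.mem_filter, Finset.mem_univ, true_and] at hp ⊢
    exact ⟨hp.2, p.1, Sym2.mem_mk_left _ _, hp.1⟩
  · intro e _ _
    induction e using Sym2.ind with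
    | _ a b => exact h0 a b

theorem main {V : Type} [Fintype V] (pos : V → ℂ) (hinj : Function.Injective pos)
    (hd : ∀ a b, ‖pos a - pos b‖ = ‖pos b - pos a‖) (T : SimpleGraph V) (hT : T.IsTree)
    (hmin : (∀ v, (T.neighborSet v).ncard ≤ 4) ∨ ∀ T' : SimpleGraph V, T'.IsTree →
      gw (fun a b => ‖pos a - pos b‖) hd T ≤ gw (fun a b => ‖pos a - pos b‖) hd T')
    (h5 : ∀ v, (T.neighborSet v).ncard ≤ 5)
    (hna : ∀ v w, 4 ≤ (T.neighborSet v).ncard → 4 ≤ (T.neighborSet w).ncard → ¬ T.Adj v w)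
    (hr : ∀ w, (T.neighborSet w).ncard ≤ 3 → (T.neighborSet w).ncard +
      (recs T (fun a b => ‖pos a - pos b‖) w).ncard ≤ 3) (W : Finset V)
    (hW : ∀ v, v ∈ W ↔ 4 ≤ (T.neighborSet v).ncard)
    (B : Finset (Sym2 V)) (hB : ∀ e, e ∈ B ↔ e ∈ T.edgeSet ∧ ∃ v ∈ e, v ∈ W) :
    ∃ H : SimpleGraph V, H.IsTree ∧ (∀ v, (H.neighborSet v).ncard ≤ 3) ∧
      gw (fun a b => ‖pos a - pos b‖) hd H ≤ gw (fun a b => ‖pos a - pos b‖) hd T +
        kk * ∑ e ∈ B, elen (fun a b => ‖pos a - pos b‖) hd e := by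
  classical
  have h45 : ∀ v, 4 ≤ (T.neighborSet v).ncard → (T.neighborSet v).ncard = 4 ∨
      ((T.neighborSet v).ncard = 5 ∧ ∀ x ∈ T.neighborSet v, ∀ y ∈ T.neighborSet v, x ≠ y →
        ‖pos v - pos x‖ ≤ ‖pos x - pos y‖) := by
    intro v hv
    have h6 := h5 v
    rcases hmin with hmin | hmin
    · exact Or.inl (le_antisymm (hmin v) hv)
    rcases Nat.lt_or_ge (T.neighborSet v).ncard 5 with h | h
    · exact Or.inl (by omega)
    · refine Or.inr ⟨by omega, ?_⟩
      intro x hx y hy hxy
      obtain ⟨T', hT', hw⟩ := swap_tree T hT (v := v) hx hy hxy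
      have e1 := hw (fun a b => ‖pos a - pos b‖) hd
      have e2 := hmin T' hT'
      rw [e1] at e2
      linarith
  obtain ⟨H, h1, h2, -, h3, h4⟩ := all_steps pos hinj hd T hT h45 hna W
    fun v hv => (hW v).1 hv
  refine ⟨H, h1, ?_, ?_⟩
  · intro v
    by_cases hv : 4 ≤ (T.neighborSet v).ncard
    · exact h2 v ((hW v).2 hv)
    · have h6 : (T.neighborSet v).ncard ≤ 3 := by omega
      refine (h3 v h6).trans (le_trans ?_ (hr v h6))
      have h7 : (W.filter (· ∈ recs T (fun a b => ‖pos a - pos b‖) v)).card ≤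
          (recs T (fun a b => ‖pos a - pos b‖) v).ncard := by
        rw [← Set.ncard_coe_finset]
        refine Set.ncard_le_ncard ?_ (Set.toFinite _)
        intro x hx
        exact (Finset.mem_filter.1 (Finset.mem_coe.1 hx)).2
      omega
  · have h6 := stars_le (fun a b => ‖pos a - pos b‖) hd (fun a b => norm_nonneg _) T W
      fun v hv w hw => hna v w ((hW v).1 hv) ((hW w).1 hw)
    have h8 : Finset.univ.filter (fun e : Sym2 V => e ∈ T.edgeSet ∧ ∃ v ∈ e, v ∈ W) = B := by
      ext e
      rw [hB]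
      simp
    rw [h8] at h6
    have h7 := mul_le_mul_of_nonneg_left h6 kk_pos.le
    linarith

/-- Trees with at most six vertices. -/
theorem small {V : Type} [Fintype V] (hV : Fintype.card V ≤ 6) (T : SimpleGraph V)
    (hT : T.IsTree) (d : V → V → ℝ) : (∀ v, (T.neighborSet v).ncard ≤ 5) ∧
      (∀ v w, 4 ≤ (T.neighborSet v).ncard → 4 ≤ (T.neighborSet w).ncard → ¬ T.Adj v w) ∧
      ∀ w, (T.neighborSet w).ncard ≤ 3 → (T.neighborSet w).ncard + (recs T d w).ncard ≤ 3 := by
  classical
  have hdeg : ∀ v, (T.neighborSet v).ncard = T.degree v := fun v => by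
    rw [← SimpleGraph.card_neighborSet_eq_degree, Set.ncard_eq_toFinset_card', Set.toFinset_card]
  have hsum : ∑ v, T.degree v + 2 = 2 * Fintype.card V := by
    have h1 := T.sum_degrees_eq_twice_card_edges
    have h2 := hT.card_edgeFinset
    omega
  have hpos : ∀ v, (∃ u, u ≠ v) → 1 ≤ T.degree v := by
    rintro v ⟨u, hu⟩
    have : Nontrivial V := ⟨u, v, hu⟩
    exact hT.1.preconnected.degree_pos_of_nontrivial v
  have key : ∀ v w : V, v ≠ w → T.degree v + T.degree w ≤ 6 := by
    intro v w hvw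
    have h1 : ∀ u ∈ (Finset.univ.erase v).erase w, 1 ≤ T.degree u := fun u _ => by
      by_cases huv : u = v
      · exact hpos u ⟨w, fun h => hvw (huv.symm.trans h.symm)⟩
      · exact hpos u ⟨v, fun h => huv h.symm⟩
    have h2 := Finset.card_nsmul_le_sum _ (fun u => T.degree u) 1 h1
    rw [Finset.card_erase_of_mem (Finset.mem_erase.2 ⟨hvw.symm, Finset.mem_univ w⟩),
      Finset.card_erase_of_mem (Finset.mem_univ v), Finset.card_univ] at h2
    have h3 := Finset.add_sum_erase (Finset.univ) (fun u => T.degree u) (Finset.mem_univ v)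
    have h4 := Finset.add_sum_erase (Finset.univ.erase v) (fun u => T.degree u)
      (Finset.mem_erase.2 ⟨hvw.symm, Finset.mem_univ w⟩)
    simp only [smul_eq_mul, mul_one] at h2 h3 h4
    omega
  refine ⟨?_, ?_, ?_⟩
  · intro v
    rw [hdeg]
    have := T.degree_lt_card_verts v
    omega
  · intro v w hv hw h
    rw [hdeg] at hv hw
    have := key v w h.ne
    omega
  · intro w hw
    rw [hdeg] at hw ⊢
    rcases Set.eq_empty_or_nonempty (recs T d w) with h | ⟨v, hv⟩
    · rw [h, Set.ncard_empty]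
      omega
    · have h1 : T.Adj v w := hv.1
      have h2 := hv.2.1
      rw [hdeg] at h2
      have h3 := key v w h1.ne
      have h4 : (recs T d w).ncard ≤ 1 := by
        rw [Set.ncard_le_one]
        intro x hx y hy
        by_contra hxy
        have h5 := hx.2.1
        have h6 := hy.2.1
        rw [hdeg] at h5 h6
        have := key x y hxy
        omega
      omega

end MP_675adf_co_SB
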