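import Mathlib

/-!
# Four or five points around a point of the plane

kk = (sqrt 2 - 1)/4.  Among four points around the origin two consecutive ones z, z' with
|z| at least |z'| satisfy |z - z'| - |z| at most kk times the sum of the four distances to the
origin.  For five points whose mutual distances are at least their distances to the origin there
are two disjoint pairs for which the sum of the two costs is at most kk times the sum of the five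
distances.
-/

set_option autoImplicit false

open Real

namespace MP_675adf_co_SB

/-- kk = (sqrt 2 - 1)/4 -/
noncomputable def kk : ℝ := (Real.sqrt 2 - 1) / 4

theorem norm_sub_sq_arg (a b : ℂ) (g : ℝ) (h : Real.cos g = Real.cos (b.arg - a.arg)) :
    ‖a - b‖ ^ 2 = ‖a‖ ^ 2 + ‖b‖ ^ 2 - 2 * ‖a‖ * ‖b‖ * Real.cos g := by
  have h1 := Complex.norm_mul_cos_arg a
  have h2 := Complex.norm_mul_sin_arg a
  have h3 := Complex.norm_mul_cos_arg b
  have h4 := Complex.norm_mul_sin_arg b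
  rw [h, Real.cos_sub]
  have e1 : ‖a - b‖ ^ 2 = (a.re - b.re) ^ 2 + (a.im - b.im) ^ 2 := by
    rw [← Complex.normSq_eq_norm_sq, Complex.normSq_apply]
    simp only [Complex.sub_re, Complex.sub_im]
    ring
  have e2 : ‖a‖ ^ 2 = a.re ^ 2 + a.im ^ 2 := by
    rw [← Complex.normSq_eq_norm_sq, Complex.normSq_apply]
    ring
  have e3 : ‖b‖ ^ 2 = b.re ^ 2 + b.im ^ 2 := by
    rw [← Complex.normSq_eq_norm_sq, Complex.normSq_apply]
    ring
  rw [e1, e2, e3]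
  have e4 : 2 * ‖a‖ * ‖b‖ * (Real.cos b.arg * Real.cos a.arg + Real.sin b.arg * Real.sin a.arg)
      = 2 * ((‖a‖ * Real.cos a.arg) * (‖b‖ * Real.cos b.arg) +
        (‖a‖ * Real.sin a.arg) * (‖b‖ * Real.sin b.arg)) := by ring
  rw [e4, h1, h2, h3, h4]
  ring

/-- the cost of a pair -/
theorem cost_le {a b : ℂ} {g : ℝ} (h0 : 0 ≤ g) (h1 : g ≤ 2 * π)
    (h : ‖a - b‖ ^ 2 = ‖a‖ ^ 2 + ‖b‖ ^ 2 - 2 * ‖a‖ * ‖b‖ * Real.cos g) :
    ‖a - b‖ - max ‖a‖ ‖b‖ ≤ min ‖a‖ ‖b‖ * (2 * Real.sin (g / 2) - 1) := by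
  have hs0 : 0 ≤ Real.sin (g / 2) := Real.sin_nonneg_of_nonneg_of_le_pi (by linarith) (by linarith)
  have hs1 : Real.sin (g / 2) ≤ 1 := Real.sin_le_one _
  have hc : Real.cos g = 1 - 2 * Real.sin (g / 2) ^ 2 := by
    have : g = 2 * (g / 2) := by ring
    rw [this, Real.cos_two_mul, Real.cos_sq']
    have : 2 * (g / 2) / 2 = g / 2 := by ring
    rw [this]
    ring
  have key : ∀ M m s : ℝ, 0 ≤ m → m ≤ M → 0 ≤ s → s ≤ 1 →
      M ^ 2 + m ^ 2 - 2 * M * m * (1 - 2 * s ^ 2) ≤ (M + m * (2 * s - 1)) ^ 2 := by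
    intro M m s hm hM hs hs'
    have : 0 ≤ 4 * m * s * (M - m) * (1 - s) := by
      have := sub_nonneg.2 hM
      have := sub_nonneg.2 hs'
      positivity
    nlinarith
  have hb0 := norm_nonneg b
  have ha0 := norm_nonneg a
  rcases le_total ‖a‖ ‖b‖ with hab | hab
  · rw [max_eq_right hab, min_eq_left hab]
    have h2 := key ‖b‖ ‖a‖ _ ha0 hab hs0 hs1
    have h3 : ‖a - b‖ ^ 2 ≤ (‖b‖ + ‖a‖ * (2 * Real.sin (g / 2) - 1)) ^ 2 := by
      rw [h, hc]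
      linarith
    have h4 : 0 ≤ ‖b‖ + ‖a‖ * (2 * Real.sin (g / 2) - 1) := by nlinarith
    have h5 := abs_le_of_sq_le_sq h3 h4
    linarith [h5, le_abs_self ‖a - b‖]
  · rw [max_eq_left hab, min_eq_right hab]
    have h2 := key ‖a‖ ‖b‖ _ hb0 hab hs0 hs1
    have h3 : ‖a - b‖ ^ 2 ≤ (‖a‖ + ‖b‖ * (2 * Real.sin (g / 2) - 1)) ^ 2 := by
      rw [h, hc]
      linarith
    have h4 : 0 ≤ ‖a‖ + ‖b‖ * (2 * Real.sin (g / 2) - 1) := by nlinarith
    have h5 := abs_le_of_sq_le_sq h3 h4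
    linarith [h5, le_abs_self ‖a - b‖]

/-- the tangent of the sine -/
theorem sin_le_tangent {x x0 : ℝ} (h0 : 0 ≤ x) (h1 : x ≤ π) (h2 : 0 ≤ x0) (h3 : x0 ≤ π) :
    Real.sin x ≤ Real.sin x0 + Real.cos x0 * (x - x0) := by
  have hc : ConcaveOn ℝ (Set.Icc 0 π) Real.sin := strictConcaveOn_sin_Icc.concaveOn
  have hd : HasDerivAt Real.sin (Real.cos x0) x0 := Real.hasDerivAt_sin x0
  rcases lt_trichotomy x x0 with h | h | h
  · have h4 := hc.le_slope_of_hasDerivAt ⟨h0, h1⟩ ⟨h2, h3⟩ h hd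
    rw [slope_def_field, le_div_iff₀ (by linarith)] at h4
    linarith
  · rw [h]
    simp
  · have h4 := hc.slope_le_of_hasDerivAt ⟨h2, h3⟩ ⟨h0, h1⟩ h hd
    rw [slope_def_field, div_le_iff₀ (by linarith)] at h4
    linarith

/-- cyclic order around the origin -/
theorem cyc (k : ℕ) (z : Fin (k + 1) → ℂ) : ∃ (σ : Equiv.Perm (Fin (k + 1)))
    (g : Fin (k + 1) → ℝ), (∀ i, 0 ≤ g i) ∧ (∀ i, g i ≤ 2 * π) ∧ ∑ i, g i = 2 * π ∧
      ∀ i, ‖z (σ i) - z (σ (i + 1))‖ ^ 2 = ‖z (σ i)‖ ^ 2 + ‖z (σ (i + 1))‖ ^ 2 -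
        2 * ‖z (σ i)‖ * ‖z (σ (i + 1))‖ * Real.cos (g i) := by
  obtain ⟨σ, hσ⟩ : ∃ σ : Equiv.Perm (Fin (k + 1)), σ = Tuple.sort fun i => (z i).arg := ⟨_, rfl⟩
  have hmono : Monotone fun i => (z (σ i)).arg := by
    have := Tuple.monotone_sort fun i => (z i).arg
    rw [hσ]
    exact this
  obtain ⟨t, ht⟩ : ∃ t : Fin (k + 1) → ℝ, t = fun i => (z (σ i)).arg := ⟨_, rfl⟩
  rw [← ht] at hmono
  have hlo : ∀ i, -π < t i := fun i => by rw [ht]; exact Complex.neg_pi_lt_arg _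
  have hhi : ∀ i, t i ≤ π := fun i => by rw [ht]; exact Complex.arg_le_pi _
  refine ⟨σ, fun i => t (i + 1) - t i + (if i = Fin.last k then 2 * π else 0), ?_, ?_, ?_, ?_⟩
  · intro i
    by_cases h : i = Fin.last k
    · simp only [h, if_true]
      linarith [hlo (Fin.last k + 1), hhi (Fin.last k)]
    · simp only [h, if_false, add_zero]
      have h1 : i ≤ i + 1 := by
        have hi : i < Fin.last k := lt_of_le_of_ne (Fin.le_last i) h
        rw [Fin.le_iff_val_le_val, Fin.val_add_one_of_lt hi]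
        omega
      linarith [hmono h1]
  · intro i
    by_cases h : i = Fin.last k
    · simp only [h, if_true, Fin.last_add_one]
      linarith [hmono (Fin.zero_le (Fin.last k))]
    · simp only [h, if_false, add_zero]
      linarith [hlo i, hhi (i + 1)]
  · rw [Finset.sum_add_distrib, Finset.sum_sub_distrib, Finset.sum_ite_eq' Finset.univ]
    have h1 : ∑ i, t (i + 1) = ∑ i, t i := Equiv.sum_comp (Equiv.addRight (1 : Fin (k + 1))) t
    rw [h1]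
    simp
  · intro i
    apply norm_sub_sq_arg
    have h1 : (z (σ (i + 1))).arg - (z (σ i)).arg = t (i + 1) - t i := by rw [ht]
    rw [h1]
    by_cases h : i = Fin.last k
    · simp only [h, if_true]
      exact Real.cos_add_two_pi _
    · simp only [h, if_false, add_zero]

theorem sqrt2_bounds : 1.41421 ≤ Real.sqrt 2 ∧ Real.sqrt 2 ≤ 1.41422 := by
  constructor
  · apply Real.le_sqrt_of_sq_le
    norm_num
  · rw [Real.sqrt_le_left (by norm_num)]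
    norm_num

theorem kk_pos : 0 < kk := by
  unfold kk
  linarith [sqrt2_bounds.1]

/-- the pair with its longer leg first -/
theorem orient (a b : ℂ) : (‖b‖ ≤ ‖a‖ ∧ ‖a - b‖ - ‖a‖ = ‖a - b‖ - max ‖a‖ ‖b‖) ∨
    (‖a‖ ≤ ‖b‖ ∧ ‖b - a‖ - ‖b‖ = ‖a - b‖ - max ‖a‖ ‖b‖) := by
  rcases le_total ‖b‖ ‖a‖ with h | h
  · exact Or.inl ⟨h, by rw [max_eq_left h]⟩
  · exact Or.inr ⟨h, by rw [max_eq_right h, norm_sub_rev]⟩

theorem star4 (z : Fin 4 → ℂ) (hz : ∀ i, z i ≠ 0) : ∃ i j, i ≠ j ∧ ‖z j‖ ≤ ‖z i‖ ∧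
    ‖z i - z j‖ - ‖z i‖ ≤ kk * ∑ i, ‖z i‖ := by
  obtain ⟨σ, g, h0, h1, hs, hc⟩ := cyc 3 z
  obtain ⟨S, hS⟩ : ∃ S : ℝ, S = ∑ i, ‖z i‖ := ⟨_, rfl⟩
  rw [← hS]
  by_contra hcon
  push Not at hcon
  have hpos : ∀ i, 0 < ‖z i‖ := fun i => norm_pos_iff.2 (hz i)
  have hS0 : 0 < S := by
    rw [hS]
    exact Finset.sum_pos (fun i _ => hpos i) ⟨0, Finset.mem_univ 0⟩
  have hne : ∀ i : Fin 4, σ i ≠ σ (i + 1) := by
    intro i h
    have key : ∀ i : Fin 4, i ≠ i + 1 := by decide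
    exact key i (σ.injective h)
  have hbig : ∀ i : Fin 4, kk * S < ‖z (σ i) - z (σ (i + 1))‖ -
      max ‖z (σ i)‖ ‖z (σ (i + 1))‖ := by
    intro i
    rcases orient (z (σ i)) (z (σ (i + 1))) with ⟨h2, h3⟩ | ⟨h2, h3⟩
    · rw [← h3]
      exact hcon _ _ (hne i) h2
    · rw [← h3]
      exact hcon _ _ (hne i).symm h2
  obtain ⟨m, hm⟩ : ∃ m : Fin 4 → ℝ, m = fun i => min ‖z (σ i)‖ ‖z (σ (i + 1))‖ := ⟨_, rfl⟩
  have hm0 : ∀ i, 0 < m i := fun i => by rw [hm]; exact lt_min (hpos _) (hpos _)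
  have hmS : ∑ i, m i ≤ S := by
    rw [hS, ← Equiv.sum_comp σ fun i => ‖z i‖]
    refine Finset.sum_le_sum fun i _ => ?_
    rw [hm]
    exact min_le_left _ _
  have htan : ∀ i, 2 * Real.sin (g i / 2) - 1 ≤
      (Real.sqrt 2 - 1) + Real.sqrt 2 / 2 * (g i - π / 2) := by
    intro i
    have h := sin_le_tangent (x := g i / 2) (x0 := π / 4) (by linarith [h0 i])
      (by linarith [h1 i]) (by positivity) (by linarith [Real.pi_pos])
    rw [Real.sin_pi_div_four, Real.cos_pi_div_four] at h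
    linarith
  have hone : ∀ i, (Real.sqrt 2 - 1) * (2 - m i / (S / 4)) <
      (Real.sqrt 2 - 1) + Real.sqrt 2 / 2 * (g i - π / 2) := by
    intro i
    have h2 := cost_le (h0 i) (h1 i) (hc i)
    have h3 := hbig i
    have h4 : m i * (2 * Real.sin (g i / 2) - 1) ≤
      m i * ((Real.sqrt 2 - 1) + Real.sqrt 2 / 2 * (g i - π / 2)) :=
      mul_le_mul_of_nonneg_left (htan i) (hm0 i).le
    have h5 : kk * S < m i * ((Real.sqrt 2 - 1) + Real.sqrt 2 / 2 * (g i - π / 2)) := by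
      refine lt_of_lt_of_le (h3.trans_le h2) ?_
      have : min ‖z (σ i)‖ ‖z (σ (i + 1))‖ = m i := by rw [hm]
      rw [this]
      exact h4
    have h6 : kk * S / m i < (Real.sqrt 2 - 1) + Real.sqrt 2 / 2 * (g i - π / 2) := by
      rw [div_lt_iff₀ (hm0 i)]
      linarith
    refine lt_of_le_of_lt ?_ h6
    rw [le_div_iff₀ (hm0 i)]
    have h7 : kk * S = (Real.sqrt 2 - 1) * (S / 4) := by unfold kk; ring
    rw [h7]
    have h8 : 0 ≤ Real.sqrt 2 - 1 := by linarith [sqrt2_bounds.1]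
    have h9 : (2 - m i / (S / 4)) * m i ≤ S / 4 := by
      have hq : 0 < S / 4 := by linarith
      have e : (2 - m i / (S / 4)) * m i = (2 * m i * (S / 4) - m i ^ 2) / (S / 4) := by
        field_simp
      rw [e, div_le_iff₀ hq]
      nlinarith [sq_nonneg (m i - S / 4)]
    calc (Real.sqrt 2 - 1) * (2 - m i / (S / 4)) * m i
        = (Real.sqrt 2 - 1) * ((2 - m i / (S / 4)) * m i) := by ring
      _ ≤ (Real.sqrt 2 - 1) * (S / 4) := mul_le_mul_of_nonneg_left h9 h8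
  rw [Fin.sum_univ_four] at hs hmS
  have h8 : 0 < Real.sqrt 2 - 1 := by linarith [sqrt2_bounds.1]
  have h9 : (m 0 + m 1 + m 2 + m 3) / (S / 4) ≤ 4 := by
    rw [div_le_iff₀ (by linarith)]
    linarith
  have h10 : Real.sqrt 2 / 2 * (g 0 - π / 2) + Real.sqrt 2 / 2 * (g 1 - π / 2) +
      Real.sqrt 2 / 2 * (g 2 - π / 2) + Real.sqrt 2 / 2 * (g 3 - π / 2) = 0 := by
    linear_combination (Real.sqrt 2 / 2) * hs
  have h11 : (Real.sqrt 2 - 1) * (2 - m 0 / (S / 4)) + (Real.sqrt 2 - 1) * (2 - m 1 / (S / 4)) +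
      (Real.sqrt 2 - 1) * (2 - m 2 / (S / 4)) + (Real.sqrt 2 - 1) * (2 - m 3 / (S / 4)) =
      (Real.sqrt 2 - 1) * (8 - (m 0 + m 1 + m 2 + m 3) / (S / 4)) := by ring
  have h12 : (Real.sqrt 2 - 1) * 4 ≤
      (Real.sqrt 2 - 1) * (8 - (m 0 + m 1 + m 2 + m 3) / (S / 4)) :=
    mul_le_mul_of_nonneg_left (by linarith) h8.le
  linarith [hone 0, hone 1, hone 2, hone 3]

/-- five numbers on a cycle -/
theorem five {a b c d e k : ℝ} (ha : 0 ≤ a) (hb : 0 ≤ b) (hc : 0 ≤ c) (hd : 0 ≤ d) (he : 0 ≤ e)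
    (hk : 0 < k) (h1 : k ^ 2 < a ^ 2 + b ^ 2) (h3 : k ^ 2 < c ^ 2 + d ^ 2)
    (h5 : k ^ 2 < e ^ 2 + a ^ 2) (hab : a ≤ b) (hac : a ≤ c) (had : a ≤ d) (hae : a ≤ e) :
    3 * k < a + b + c + d + e := by
  rcases le_or_gt a (4 / 5 * k) with h | h
  · have h6 : k < c + d := by nlinarith
    have h7 : a * a ≤ 4 / 5 * k * a := mul_le_mul_of_nonneg_right h ha
    have h8 : k - a / 2 < b := by
      by_contra hcon
      rw [not_lt] at hcon
      have : b ^ 2 ≤ (k - a / 2) ^ 2 := by nlinarith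
      nlinarith
    have h9 : k - a / 2 < e := by
      by_contra hcon
      rw [not_lt] at hcon
      have : e ^ 2 ≤ (k - a / 2) ^ 2 := by nlinarith
      nlinarith
    linarith
  · linarith

theorem sin_pi_div_five_lt : 2 * Real.sin (π / 5) - 1 < 9 / 5 * kk := by
  have h1 := Real.cos_pi_div_five
  have h2 := Real.sin_sq_add_cos_sq (π / 5)
  have h3 : (2.236 : ℝ) ≤ Real.sqrt 5 := by
    apply Real.le_sqrt_of_sq_le
    norm_num
  have h4 : Real.sqrt 5 ^ 2 = 5 := Real.sq_sqrt (by norm_num)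
  rw [h1] at h2
  have h5 : Real.sin (π / 5) ^ 2 ≤ 0.3455 := by nlinarith
  have h6 : Real.sin (π / 5) ≤ 0.588 := by
    by_contra hcon
    rw [not_le] at hcon
    nlinarith
  unfold kk
  linarith [sqrt2_bounds.1]

theorem star5 (z : Fin 5 → ℂ) (hz : ∀ i, z i ≠ 0)
    (hm : ∀ i j, i ≠ j → ‖z i‖ ≤ ‖z i - z j‖) : ∃ i j i' j', i ≠ j ∧ i' ≠ j' ∧ i ≠ i' ∧
      i ≠ j' ∧ j ≠ i' ∧ j ≠ j' ∧ ‖z j‖ ≤ ‖z i‖ ∧ ‖z j'‖ ≤ ‖z i'‖ ∧
      (‖z i - z j‖ - ‖z i‖) + (‖z i' - z j'‖ - ‖z i'‖) ≤ kk * ∑ i, ‖z i‖ := by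
  obtain ⟨σ, g, h0, h1, hs, hc⟩ := cyc 4 z
  obtain ⟨S, hS⟩ : ∃ S : ℝ, S = ∑ i, ‖z i‖ := ⟨_, rfl⟩
  rw [← hS]
  by_contra hcon
  push Not at hcon
  have hpos : ∀ i, 0 < ‖z i‖ := fun i => norm_pos_iff.2 (hz i)
  have hS0 : 0 < S := by
    rw [hS]
    exact Finset.sum_pos (fun i _ => hpos i) ⟨0, Finset.mem_univ 0⟩
  obtain ⟨c, hcdef⟩ : ∃ c : Fin 5 → ℝ, c = fun i => ‖z (σ i) - z (σ (i + 1))‖ -
      max ‖z (σ i)‖ ‖z (σ (i + 1))‖ := ⟨_, rfl⟩
  have hdis : ∀ i : Fin 5, i ≠ i + 1 ∧ i + 2 ≠ i + 2 + 1 ∧ i ≠ i + 2 ∧ i ≠ i + 2 + 1 ∧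
      i + 1 ≠ i + 2 ∧ i + 1 ≠ i + 2 + 1 := by decide
  have hbig : ∀ i : Fin 5, kk * S < c i + c (i + 2) := by
    intro i
    obtain ⟨d1, d2, d3, d4, d5, d6⟩ := hdis i
    have e1 := σ.injective.ne d1
    have e2 := σ.injective.ne d2
    have e3 := σ.injective.ne d3
    have e4 := σ.injective.ne d4
    have e5 := σ.injective.ne d5
    have e6 := σ.injective.ne d6
    rw [hcdef]
    rcases orient (z (σ i)) (z (σ (i + 1))) with ⟨h2, h3⟩ | ⟨h2, h3⟩ <;>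
    rcases orient (z (σ (i + 2))) (z (σ (i + 2 + 1))) with ⟨h4, h5⟩ | ⟨h4, h5⟩
    · have := hcon _ _ _ _ e1 e2 e3 e4 e5 e6 h2 h4
      rw [h3, h5] at this
      exact this
    · have := hcon _ _ _ _ e1 e2.symm e4 e3 e6 e5 h2 h4
      rw [h3, h5] at this
      exact this
    · have := hcon _ _ _ _ e1.symm e2 e5 e6 e3 e4 h2 h4
      rw [h3, h5] at this
      exact this
    · have := hcon _ _ _ _ e1.symm e2.symm e6 e5 e4 e3 h2 h4
      rw [h3, h5] at this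
      exact this
  have hc0 : ∀ i, 0 ≤ c i := by
    intro i
    rw [hcdef]
    have e1 := σ.injective.ne (hdis i).1
    have h2 := hm _ _ e1
    have h3 := hm _ _ e1.symm
    rw [norm_sub_rev] at h3
    have := max_le h2 h3
    simp only [sub_nonneg]
    exact this
  obtain ⟨m, hmd⟩ : ∃ m : Fin 5 → ℝ, m = fun i => min ‖z (σ i)‖ ‖z (σ (i + 1))‖ := ⟨_, rfl⟩
  have hm0 : ∀ i, 0 < m i := fun i => by rw [hmd]; exact lt_min (hpos _) (hpos _)
  have hmS : ∑ i, m i ≤ S := by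
    rw [hS, ← Equiv.sum_comp σ fun i => ‖z i‖]
    refine Finset.sum_le_sum fun i _ => ?_
    rw [hmd]
    exact min_le_left _ _
  obtain ⟨f, hf⟩ : ∃ f : Fin 5 → ℝ, f = fun i => 2 * Real.sin (π / 5) - 1 +
      Real.cos (π / 5) * (g i - 2 * π / 5) := ⟨_, rfl⟩
  have hcf : ∀ i, c i ≤ m i * f i := by
    intro i
    have h := sin_le_tangent (x := g i / 2) (x0 := π / 5) (by linarith [h0 i])
      (by linarith [h1 i]) (by positivity) (by linarith [Real.pi_pos])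
    have h2 := cost_le (h0 i) (h1 i) (hc i)
    have h3 : c i ≤ m i * (2 * Real.sin (g i / 2) - 1) := by
      rw [hcdef, hmd]
      exact h2
    refine h3.trans (mul_le_mul_of_nonneg_left ?_ (hm0 i).le)
    rw [hf]
    simp only
    linarith
  have hf0 : ∀ i, 0 ≤ f i := by
    intro i
    by_contra hneg
    rw [not_le] at hneg
    have := mul_neg_of_pos_of_neg (hm0 i) hneg
    linarith [hcf i, hc0 i]
  have hfs : ∑ i, f i = 5 * (2 * Real.sin (π / 5) - 1) := by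
    rw [Fin.sum_univ_five] at hs ⊢
    rw [hf]
    simp only
    linear_combination Real.cos (π / 5) * hs
  obtain ⟨h, hh⟩ : ∃ h : Fin 5 → ℝ, h = fun i => Real.sqrt (c i) := ⟨_, rfl⟩
  have hh0 : ∀ i, 0 ≤ h i := fun i => by rw [hh]; exact Real.sqrt_nonneg _
  have hh2 : ∀ i, h i ^ 2 = c i := fun i => by rw [hh]; exact Real.sq_sqrt (hc0 i)
  have hcs : (∑ i, h i) ^ 2 ≤ S * (5 * (2 * Real.sin (π / 5) - 1)) := by
    have h2 : ∑ i, h i ≤ ∑ i, Real.sqrt (m i) * Real.sqrt (f i) := by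
      refine Finset.sum_le_sum fun i _ => ?_
      rw [← Real.sqrt_mul (hm0 i).le, hh]
      exact Real.sqrt_le_sqrt (hcf i)
    have h3 := Finset.sum_mul_sq_le_sq_mul_sq Finset.univ (fun i => Real.sqrt (m i))
      (fun i => Real.sqrt (f i))
    have h4 : ∑ i, Real.sqrt (m i) ^ 2 = ∑ i, m i :=
      Finset.sum_congr rfl fun i _ => Real.sq_sqrt (hm0 i).le
    have h5 : ∑ i, Real.sqrt (f i) ^ 2 = ∑ i, f i :=
      Finset.sum_congr rfl fun i _ => Real.sq_sqrt (hf0 i)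
    rw [h4, h5, hfs] at h3
    have h6 : 0 ≤ ∑ i, h i := Finset.sum_nonneg fun i _ => hh0 i
    have h7 : (∑ i, h i) ^ 2 ≤ (∑ i, Real.sqrt (m i) * Real.sqrt (f i)) ^ 2 := by
      exact pow_le_pow_left₀ h6 h2 2
    refine h7.trans (h3.trans (mul_le_mul_of_nonneg_right hmS ?_))
    rw [← hfs]
    exact Finset.sum_nonneg fun i _ => hf0 i
  obtain ⟨k, hk⟩ : ∃ k : ℝ, k = Real.sqrt (kk * S) := ⟨_, rfl⟩
  have hkS : 0 < kk * S := mul_pos kk_pos hS0
  have hk0 : 0 < k := by rw [hk]; exact Real.sqrt_pos.2 hkS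
  have hk2 : k ^ 2 = kk * S := by rw [hk]; exact Real.sq_sqrt hkS.le
  obtain ⟨i, -, hi⟩ := Finset.exists_min_image Finset.univ h ⟨0, Finset.mem_univ (0 : Fin 5)⟩
  have h3k : 3 * k < ∑ i, h i := by
    have e0 : ∑ j, h j = h i + h (i + 2) + h (i + 4) + h (i + 1) + h (i + 3) := by
      rw [Fin.sum_univ_five]
      fin_cases i <;> simp <;> ring_nf
    have c1 : ∀ i : Fin 5, i + 2 + 2 = i + 4 ∧ i + 4 + 2 = i + 1 ∧ i + 1 + 2 = i + 3 ∧
        i + 3 + 2 = i := by decide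
    obtain ⟨c11, c12, c13, c14⟩ := c1 i
    have b1 := hbig i
    have b3 := hbig (i + 4)
    have b5 := hbig (i + 3)
    rw [c12] at b3
    rw [c14] at b5
    rw [← hk2, ← hh2, ← hh2] at b1 b3 b5
    rw [e0]
    exact five (hh0 _) (hh0 _) (hh0 _) (hh0 _) (hh0 _) hk0 b1 b3 b5
      (hi _ (Finset.mem_univ _)) (hi _ (Finset.mem_univ _)) (hi _ (Finset.mem_univ _))
      (hi _ (Finset.mem_univ _))
  have h9 : 9 * (kk * S) < (∑ i, h i) ^ 2 := by
    rw [← hk2]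
    have : 0 < 3 * k := by linarith
    nlinarith
  have h10 := sin_pi_div_five_lt
  nlinarith

end MP_675adf_co_SB
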