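import Pool.Agent.Lib.MP_675adf_co.Mst
import Pool.Agent.Lib.MP_675adf_co_SB.Star

/-!
# Replacing edges at the vertices of degree four or five
-/

set_option autoImplicit false

open Real T3

namespace MP_675adf_co_SB

/-- Replacing the edge v a by the edge a b. -/
theorem swap_adj {V : Type} [Fintype V] (T : SimpleGraph V) (hT : T.IsTree) {v a b : V}
    (hva : T.Adj v a) (hvb : T.Adj v b) (hab : a ≠ b) :
    ∃ T' : SimpleGraph V, T'.IsTree ∧ (∀ (d : V → V → ℝ) (hd : ∀ a b, d a b = d b a),
      gw d hd T' = gw d hd T - d v a + d a b) ∧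
      T'.neighborSet v = T.neighborSet v \ {a} ∧
      T'.neighborSet a = insert b (T.neighborSet a \ {v}) ∧
      T'.neighborSet b = insert a (T.neighborSet b) ∧
      ∀ x, x ≠ v → x ≠ a → x ≠ b → T'.neighborSet x = T.neighborSet x := by
  classical
  have hnab : ¬ T.Adj a b := not_adj_of_two T hT hva hvb hab
  set S : Set (Sym2 V) := insert s(a, b) (T.edgeSet \ {s(v, a)}) with hS
  have hes : (SimpleGraph.fromEdgeSet S).edgeSet = S := by
    rw [SimpleGraph.edgeSet_fromEdgeSet]
    ext e
    refine ⟨fun h => h.1, fun h => ⟨h, ?_⟩⟩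
    rcases h with rfl | h
    · simpa using hab
    · intro hd
      exact T.not_isDiag_of_mem_edgeSet h.1 hd
  have hnot : s(a, b) ∉ T.edgeSet \ {s(v, a)} := fun h => hnab h.1
  have hadj : ∀ x y, (SimpleGraph.fromEdgeSet S).Adj x y ↔
      ((x = a ∧ y = b) ∨ (x = b ∧ y = a)) ∨
        (T.Adj x y ∧ ¬ ((x = v ∧ y = a) ∨ (x = a ∧ y = v))) := by
    intro x y
    rw [← SimpleGraph.mem_edgeSet, hes, hS, Set.mem_insert_iff, Set.mem_sdiff,
      Set.mem_singleton_iff, Sym2.eq_iff, Sym2.eq_iff, SimpleGraph.mem_edgeSet]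
  have n1 := hva.ne
  have n2 := hvb.ne
  have n3 := hab.symm
  have n4 := hva.ne'
  have n5 := hvb.ne'
  refine ⟨SimpleGraph.fromEdgeSet S, ?_, ?_, ?_, ?_, ?_, ?_⟩
  · rw [SimpleGraph.isTree_iff_connected_and_card] at hT ⊢
    obtain ⟨hc, hcard⟩ := hT
    refine ⟨?_, ?_⟩
    · have := hc.nonempty
      refine ⟨?_⟩
      have hvb' : (SimpleGraph.fromEdgeSet S).Adj v b := by
        rw [hadj]
        tauto
      have hba' : (SimpleGraph.fromEdgeSet S).Adj b a := by
        rw [hadj]
        tauto
      have key : ∀ x y : V, T.Adj x y → (SimpleGraph.fromEdgeSet S).Reachable x y := by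
        intro x y hxy
        by_cases he : s(x, y) = s(v, a)
        · rw [Sym2.eq_iff] at he
          rcases he with ⟨rfl, rfl⟩ | ⟨rfl, rfl⟩
          · exact hvb'.reachable.trans hba'.reachable
          · exact (hvb'.reachable.trans hba'.reachable).symm
        · refine SimpleGraph.Adj.reachable ?_
          rw [SimpleGraph.fromEdgeSet_adj]
          exact ⟨Or.inr ⟨hxy, he⟩, hxy.ne⟩
      intro x y
      obtain ⟨p⟩ := hc.preconnected x y
      induction p with
      | nil => exact SimpleGraph.Reachable.refl _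
      | cons h _ ih => exact (key _ _ h).trans ih
    · rw [hes, ← hcard]
      congr 1
      have hfin : (T.edgeSet).Finite := Set.toFinite _
      have h1 : Nat.card S = S.ncard := rfl
      have h2 : Nat.card T.edgeSet = T.edgeSet.ncard := rfl
      rw [h1, h2, hS, Set.ncard_insert_of_notMem hnot (Set.toFinite _)]
      exact Set.ncard_sdiff_singleton_add_one hva
  · intro d hd
    unfold gw
    have hF : (Finset.univ.filter (fun e : Sym2 V => e ∈ (SimpleGraph.fromEdgeSet S).edgeSet)) =
        insert s(a, b) ((Finset.univ.filter (fun e : Sym2 V => e ∈ T.edgeSet)).erase s(v, a)) := by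
      ext e
      simp only [Finset.mem_filter, Finset.mem_univ, true_and, Finset.mem_insert,
        Finset.mem_erase]
      rw [hes]
      simp only [hS, Set.mem_insert_iff, Set.mem_sdiff, Set.mem_singleton_iff]
      constructor
      · rintro (h | ⟨h1, h2⟩)
        · exact Or.inl h
        · exact Or.inr ⟨h2, h1⟩
      · rintro (h | ⟨h1, h2⟩)
        · exact Or.inl h
        · exact Or.inr ⟨h2, h1⟩
    have hn2 : s(a, b) ∉ (Finset.univ.filter (fun e : Sym2 V => e ∈ T.edgeSet)).erase s(v, a) := by
      simp only [Finset.mem_erase, Finset.mem_filter, Finset.mem_univ, true_and, not_and]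
      intro _ h
      exact hnab h
    have hmem : s(v, a) ∈ Finset.univ.filter (fun e : Sym2 V => e ∈ T.edgeSet) := by
      simp only [Finset.mem_filter, Finset.mem_univ, true_and]
      exact hva
    have e1 : elen d hd s(a, b) = d a b := rfl
    have e2 : elen d hd s(v, a) = d v a := rfl
    rw [← Finset.add_sum_erase _ _ hmem, e2]
    have := Finset.sum_insert (f := elen d hd) hn2
    rw [e1] at this
    calc _ = ∑ e ∈ insert s(a, b) ((Finset.univ.filter (fun e : Sym2 V =>
            e ∈ T.edgeSet)).erase s(v, a)), elen d hd e := by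
          refine Finset.sum_congr ?_ (fun _ _ => rfl)
          convert hF
      _ = d a b + ∑ e ∈ (Finset.univ.filter (fun e : Sym2 V =>
            e ∈ T.edgeSet)).erase s(v, a), elen d hd e := this
      _ = _ := by
          have : ∀ x y z : ℝ, x + y = z + y - z + x := by intros; ring
          convert this _ _ _ using 2
  · ext y
    simp only [SimpleGraph.mem_neighborSet, hadj, Set.mem_sdiff, Set.mem_singleton_iff]
    tauto
  · ext y
    simp only [SimpleGraph.mem_neighborSet, hadj, Set.mem_insert_iff, Set.mem_sdiff,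
      Set.mem_singleton_iff]
    tauto
  · ext y
    simp only [SimpleGraph.mem_neighborSet, hadj, Set.mem_insert_iff]
    tauto
  · intro x hx1 hx2 hx3
    ext y
    simp only [SimpleGraph.mem_neighborSet, hadj]
    tauto

/-- The same with degrees. -/
theorem swap_deg {V : Type} [Fintype V] (T : SimpleGraph V) (hT : T.IsTree) {v a b : V}
    (hva : T.Adj v a) (hvb : T.Adj v b) (hab : a ≠ b) :
    ∃ T' : SimpleGraph V, T'.IsTree ∧ (∀ (d : V → V → ℝ) (hd : ∀ a b, d a b = d b a),
      gw d hd T' = gw d hd T - d v a + d a b) ∧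
      T'.neighborSet v = T.neighborSet v \ {a} ∧
      (T'.neighborSet a).ncard = (T.neighborSet a).ncard ∧
      (T'.neighborSet b).ncard = (T.neighborSet b).ncard + 1 ∧
      ∀ x, x ≠ v → x ≠ a → x ≠ b → T'.neighborSet x = T.neighborSet x := by
  have hnab : ¬ T.Adj a b := not_adj_of_two T hT hva hvb hab
  obtain ⟨T', h1, h2, h3, h4, h5, h6⟩ := swap_adj T hT hva hvb hab
  refine ⟨T', h1, h2, h3, ?_, ?_, h6⟩
  · rw [h4, Set.ncard_insert_of_notMem (fun h => hnab h.1) (Set.toFinite _)]
    exact Set.ncard_sdiff_singleton_add_one hva.symm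
  · rw [h5, Set.ncard_insert_of_notMem (fun h => hnab h.symm) (Set.toFinite _)]

open Classical in
/-- One vertex. -/
theorem local_step {V : Type} [Fintype V] (pos : V → ℂ) (hinj : Function.Injective pos)
    (hd : ∀ a b, ‖pos a - pos b‖ = ‖pos b - pos a‖) (T : SimpleGraph V) (hT : T.IsTree) (v : V)
    (N : Set V) (hN : T.neighborSet v = N)
    (h45 : N.ncard = 4 ∨ (N.ncard = 5 ∧ ∀ x ∈ N, ∀ y ∈ N, x ≠ y →
      ‖pos v - pos x‖ ≤ ‖pos x - pos y‖)) :
    ∃ T' : SimpleGraph V, T'.IsTree ∧ (T'.neighborSet v).ncard ≤ 3 ∧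
      (∀ u, u ∉ N → u ≠ v → T'.neighborSet u = T.neighborSet u) ∧
      (∀ x ∈ N, (T'.neighborSet x).ncard ≤ (T.neighborSet x).ncard +
        (if ∃ y ∈ N, y ≠ x ∧ ‖pos v - pos x‖ ≤ ‖pos v - pos y‖ then 1 else 0)) ∧
      gw (fun a b => ‖pos a - pos b‖) hd T' ≤ gw (fun a b => ‖pos a - pos b‖) hd T +
        kk * ∑ y ∈ Finset.univ.filter (· ∈ N), ‖pos v - pos y‖ := by
  have hvN : v ∉ N := by
    rw [← hN]
    exact T.irrefl
  have hadj : ∀ x ∈ N, T.Adj v x := fun x hx => by
    rw [← hN] at hx
    exact hx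
  have hsub : ∑ y ∈ Finset.univ.filter (· ∈ N), ‖pos v - pos y‖ =
      ∑ y : N, ‖pos v - pos y‖ := by
    exact Finset.sum_subtype _ (by simp) _
  rw [hsub]
  rcases h45 with h4 | ⟨h5, hm⟩
  · have hcard : Nat.card N = 4 := by
      rw [Nat.card_coe_set_eq, h4]
    have e : Fin 4 ≃ N := (Finite.equivFinOfCardEq hcard).symm
    obtain ⟨i, j, hij, h1, h2⟩ := star4 (fun i => pos (e i) - pos v) (fun i h => by
      have := hinj (sub_eq_zero.1 h)
      exact hvN (this ▸ (e i).2))
    rw [← Equiv.sum_comp e]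
    have hs : ∑ i, ‖pos v - pos (e i)‖ = ∑ i, ‖pos (e i : V) - pos v‖ :=
      Finset.sum_congr rfl fun i _ => norm_sub_rev _ _
    rw [hs]
    have hab : (e i : V) ≠ e j := fun h => hij (e.injective (Subtype.ext h))
    obtain ⟨T', t1, t2, t3, t4, t5, t6⟩ := swap_deg T hT (hadj _ (e i).2) (hadj _ (e j).2) hab
    refine ⟨T', t1, ?_, ?_, ?_, ?_⟩
    · rw [t3, hN]
      have := Set.ncard_sdiff_singleton_add_one (e i).2 (Set.toFinite N)
      omega
    · intro u hu huv
      exact t6 u huv (fun h => hu (h ▸ (e i).2)) (fun h => hu (h ▸ (e j).2))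
    · intro x hx
      by_cases hxa : x = e i
      · rw [hxa, t4]
        omega
      · by_cases hxb : x = e j
        · rw [if_pos]
          · rw [hxb, t5]
          · refine ⟨e i, (e i).2, fun h => hxa h.symm, ?_⟩
            rw [hxb, norm_sub_rev, norm_sub_rev (pos v)]
            exact h1
        · rw [t6 x (fun h => hvN (h ▸ hx)) hxa hxb]
          omega
    · have := t2 (fun a b => ‖pos a - pos b‖) hd
      rw [this]
      have e3 : pos (e i : V) - pos v - (pos (e j : V) - pos v) = pos (e i : V) - pos (e j) := by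
        ring
      simp only [e3] at h2
      rw [norm_sub_rev (pos v) (pos (e i : V))]
      linarith
  · have hcard : Nat.card N = 5 := by
      rw [Nat.card_coe_set_eq, h5]
    have e : Fin 5 ≃ N := (Finite.equivFinOfCardEq hcard).symm
    have hne : ∀ {i j : Fin 5}, i ≠ j → (e i : V) ≠ e j := fun hij h =>
      hij (e.injective (Subtype.ext h))
    have esub : ∀ i j, pos (e i : V) - pos v - (pos (e j : V) - pos v) =
        pos (e i : V) - pos (e j) := fun i j => by ring
    obtain ⟨i, j, i', j', d1, d2, d3, d4, d5, d6, h1, h1', h2⟩ :=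
      star5 (fun i => pos (e i) - pos v) (fun i h => by
        have := hinj (sub_eq_zero.1 h)
        exact hvN (this ▸ (e i).2)) (fun i j hij => by
          simp only [esub]
          rw [norm_sub_rev (pos (e i : V)) (pos v)]
          exact hm _ (e i).2 _ (e j).2 (hne hij))
    rw [← Equiv.sum_comp e]
    have hs : ∑ i, ‖pos v - pos (e i)‖ = ∑ i, ‖pos (e i : V) - pos v‖ :=
      Finset.sum_congr rfl fun i _ => norm_sub_rev _ _
    rw [hs]
    obtain ⟨T1, t1, t2, t3, t4, t5, t6⟩ :=
      swap_deg T hT (hadj _ (e i).2) (hadj _ (e j).2) (hne d1)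
    have hT1 : ∀ k : Fin 5, k ≠ i → T1.Adj v (e k : V) := fun k hk => by
      have : (e k : V) ∈ T1.neighborSet v := by
        rw [t3, hN]
        exact ⟨(e k).2, hne hk⟩
      exact this
    obtain ⟨T2, s1, s2, s3, s4, s5, s6⟩ :=
      swap_deg T1 t1 (hT1 i' d3.symm) (hT1 j' d4.symm) (hne d2)
    refine ⟨T2, s1, ?_, ?_, ?_, ?_⟩
    · rw [s3, t3, hN]
      have h6 := Set.ncard_sdiff_singleton_add_one (e i).2 (Set.toFinite N)
      have h7 := Set.ncard_sdiff_singleton_add_one
        (show (e i' : V) ∈ N \ {(e i : V)} from ⟨(e i').2, hne d3.symm⟩) (Set.toFinite _)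
      omega
    · intro u hu huv
      rw [s6 u huv (fun h => hu (h ▸ (e i').2)) (fun h => hu (h ▸ (e j').2)),
        t6 u huv (fun h => hu (h ▸ (e i).2)) (fun h => hu (h ▸ (e j).2))]
    · intro x hx
      have hxv : x ≠ v := fun h => hvN (h ▸ hx)
      by_cases hxa : x = e i
      · rw [hxa, s6 _ (hxa ▸ hxv) (hne d3) (hne d4), t4]
        omega
      · by_cases hxb : x = e j
        · rw [if_pos]
          · rw [hxb, s6 _ (hxb ▸ hxv) (hne d5) (hne d6), t5]
          · refine ⟨e i, (e i).2, fun h => hxa h.symm, ?_⟩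
            rw [hxb, norm_sub_rev, norm_sub_rev (pos v)]
            exact h1
        · have h8 := t6 x hxv hxa hxb
          by_cases hxa' : x = e i'
          · rw [← h8, hxa', s4]
            omega
          · by_cases hxb' : x = e j'
            · rw [if_pos]
              · rw [← h8, hxb', s5]
              · refine ⟨e i', (e i').2, fun h => hxa' h.symm, ?_⟩
                rw [hxb', norm_sub_rev, norm_sub_rev (pos v)]
                exact h1'
            · rw [s6 x hxv hxa' hxb', h8]
              omega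
    · have q1 := t2 (fun a b => ‖pos a - pos b‖) hd
      have q2 := s2 (fun a b => ‖pos a - pos b‖) hd
      rw [q2, q1]
      simp only [esub] at h2
      rw [norm_sub_rev (pos v) (pos (e i : V)), norm_sub_rev (pos v) (pos (e i' : V))]
      linarith

end MP_675adf_co_SB
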